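import Pool.Agent.N641.DV.Alg
import Pool.Agent.Y238.MK.Kue

set_option autoImplicit false

/-!
# Classes of structures closed under back-and-forth equivalence: statements of the parts
-/

namespace Pool.Agent.N641.DL

open FirstOrder FirstOrder.Language Cardinal Ordinal
open Pool.Agent.Helper140.CC (Fml Sat Models Sb)
open Pool.Agent.Y238.MC (BFS)
open Pool.Agent.N641.BA (Atomless)
open Pool.Agent.N641.DV (Rep IsSw Agr AtP C1 Sys Real Ins CW LIso Uni Cn Law Pt pwStr sw)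

/-- equivalence in `L_{∞ω}` -/
def BF (L : FirstOrder.Language.{0, 0}) (M N : Type) [L.Structure M] [L.Structure N] : Prop :=
  ∃ I, BFS (L := L) M N I

/-- for every type, at most `κ` atoms have it or at most `κ` atoms do not have it -/
def VK (κ : Cardinal.{0}) {M : Type} (s : M → M → M → M → M) (L : FirstOrder.Language.{0, 0})
    [L.Structure M] : Prop :=
  ∀ (x0 : M) (n : ℕ) (x : Fin n → M) (T : Type)
    (RT : ∀ m, L.Relations m → (Fin m → T) → Prop) (t : Fin n → T),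
    #{y : M // AtP s x0 y ∧ Real s L x0 y x RT t} ≤ κ ∨
      #{y : M // AtP s x0 y ∧ ¬ Real s L x0 y x RT t} ≤ κ

/-! ## The parts -/

/-- BPK: Boolean powers with respect to atomless Boolean algebras -/
def StmBPK : Prop := ∀ (L : FirstOrder.Language.{0, 0}) [L.IsRelational] (Q : Type)
  (RQ : ∀ n, L.Relations n → (Fin n → Q) → Prop) (m : ℕ)
  (Rt : ∀ n, L.Relations n → (Fin n → Fin m) → Prop) (X Y : Type) [BooleanAlgebra X]
  [BooleanAlgebra Y] [Nontrivial X] [Nontrivial Y], Atomless X → Atomless Y →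
    @BF L (Q × Pt m X) (Q × Pt m Y) (pwStr RQ Rt X) (pwStr RQ Rt Y)

/-- INK: insertion -/
def StmINK : Prop := ∀ (L : FirstOrder.Language.{0, 0}) [L.IsRelational] (A M J : Type)
  [L.Structure A] [L.Structure M] (r : Rep L A M) (a : J → Sys L r.s), BF L M (Ins a)

/-- CNK: the canonical structures with infinite `J` -/
def StmCNK : Prop := ∀ (L : FirstOrder.Language.{0, 0}) [L.IsRelational] (Q T J J' : Type)
  [L.Structure Q] [L.Structure T] (c : Q → T) [Infinite J] [Infinite J'],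
  BF L (Cn c J) (Cn c J')

/-- FPK: two atomless Boolean algebras -/
def StmFPK : Prop := ∀ μ : Cardinal.{0}, ℵ₀ < μ →
  ∃ (X Y : Type) (_ : BooleanAlgebra X) (_ : BooleanAlgebra Y),
    Nontrivial X ∧ Nontrivial Y ∧ Atomless X ∧ Atomless Y ∧ #X = μ ∧ #Y = μ ∧
    (∀ d : X, #{u : X // u ≤ d} ≤ ℵ₀ ∨ #{u : X // Disjoint u d} ≤ ℵ₀) ∧
    ∃ d : Y, #{u : Y // u ≤ d} = μ ∧ #{u : Y // Disjoint u d} = μ

/-- DEK: decomposition -/
def StmDEK : Prop := ∀ (L : FirstOrder.Language.{0, 0}) [L.IsRelational] (σ : L.Relations 5)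
  (A : Type) [Finite A] [L.Structure A], IsSw σ A → ∀ (N : Type) [L.Structure N]
  (r : Rep L A N) (p q : N), p ≠ q → (∀ p' q' : N, AtP r.s p' q' → Agr r.s p' q' p q) →
  ∃ (Q : Type) (RQ : ∀ n, L.Relations n → (Fin n → Q) → Prop) (m : ℕ)
    (Rt : ∀ n, L.Relations n → (Fin n → Fin m) → Prop) (B : Type) (_ : BooleanAlgebra B),
    #Q ≤ #N ∧ Nonempty Q ∧ Nontrivial B ∧ Atomless B ∧ 2 ≤ m ∧
    (∀ l : Fin 5 → Fin m, Rt 5 σ l ↔ l 4 = sw (l 0) (l 1) (l 2) (l 3)) ∧
    (∀ x : Q, RQ 5 σ fun _ => x) ∧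
    Nonempty (@FirstOrder.Language.Equiv L N (Q × Pt m B) inferInstance (pwStr RQ Rt B))

/-- STK: the two Boolean powers are not isomorphic -/
def StmSTK : Prop := ∀ (κ : Cardinal.{0}), ℵ₀ ≤ κ → ∀ (L : FirstOrder.Language.{0, 0})
  [L.IsRelational] (σ : L.Relations 5)
  (Q : Type) (RQ : ∀ n, L.Relations n → (Fin n → Q) → Prop) (m : ℕ)
  (Rt : ∀ n, L.Relations n → (Fin n → Fin m) → Prop) (X Y : Type) [BooleanAlgebra X]
  [BooleanAlgebra Y] [Nonempty Q], #Q ≤ κ → 2 ≤ m →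
  (∀ l : Fin 5 → Fin m, Rt 5 σ l ↔ l 4 = sw (l 0) (l 1) (l 2) (l 3)) →
  (∀ x : Q, RQ 5 σ fun _ => x) →
  (∀ d : X, #{u : X // u ≤ d} ≤ κ ∨ #{u : X // Disjoint u d} ≤ κ) →
  (∃ d : Y, κ < #{u : Y // u ≤ d} ∧ κ < #{u : Y // Disjoint u d}) →
  ¬ Nonempty (@FirstOrder.Language.Equiv L (Q × Pt m X) (Q × Pt m Y) (pwStr RQ Rt X)
    (pwStr RQ Rt Y))

/-- MPK: the cardinality of Boolean powers -/
def StmMPK : Prop := ∀ (Q : Type) (m : ℕ) (X : Type) [BooleanAlgebra X] [Nonempty Q]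
  [Infinite X], #Q ≤ #X → 2 ≤ m → #(Q × Pt m X) = #X

/-- MIK: the cardinality after the insertion -/
def StmMIK : Prop := ∀ (L : FirstOrder.Language.{0, 0}) [L.IsRelational] (A M J : Type)
  [L.Structure A] [L.Structure M] (r : Rep L A M) (a : J → Sys L r.s), #M ≤ #J → Infinite J →
  #(Ins a) = #J

/-- V1K: almost all atoms have the same type if there is only one system -/
def StmV1K : Prop := ∀ (κ : Cardinal.{0}), ℵ₀ ≤ κ → ∀ (L : FirstOrder.Language.{0, 0})
  [L.IsRelational] (A M J : Type) [L.Structure A] [L.Structure M] (r : Rep L A M)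
  (a : Sys L r.s), #M ≤ κ → ∀ s', CW (fun _ : J => a) s' → VK κ s' L

/-- V2K: this is not the case for two systems with different limits -/
def StmV2K : Prop := ∀ (κ : Cardinal.{0}), ℵ₀ ≤ κ → ∀ (L : FirstOrder.Language.{0, 0})
  [L.IsRelational] (A M J : Type) [L.Structure A] [L.Structure M] (r : Rep L A M)
  (a b : Sys L r.s) (n : ℕ) (x : Fin n → M), κ < #J → ¬ LIso a b x →
  ∀ s', CW (Sum.elim (fun _ : J => a) fun _ : J => b) s' → ¬ VK κ s' L

/-- VSK: the property is invariant under isomorphisms -/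
def StmVSK : Prop := ∀ (κ : Cardinal.{0}) (L : FirstOrder.Language.{0, 0}) [L.IsRelational]
  (σ : L.Relations 5) (A M M' : Type) [L.Structure A] [L.Structure M] [L.Structure M'],
  IsSw σ A → ∀ (r : Rep L A M) (r' : Rep L A M'), Nonempty (M ≃[L] M') → VK κ r.s L → VK κ r'.s L

/-- DWK: restriction to subsets of two systems -/
def StmDWK : Prop := ∀ (L : FirstOrder.Language.{0, 0}) [L.IsRelational] (A M : Type) [Finite A]
  [L.Structure A] [L.Structure M] (r : Rep L A M)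
  (a b : Sys L r.s) (n : ℕ) (x : Fin n → M), ∃ C : Set M, C.Countable ∧ C.Nonempty ∧
    ∀ S : Set M, C ⊆ S → (∀ x ∈ S, ∀ y ∈ S, ∀ z ∈ S, ∀ w ∈ S, r.s x y z w ∈ S) →
    ∃ (r' : Rep L A (Sb S)) (a' b' : Sys L r'.s) (x' : Fin n → Sb S),
      LIso a' b' x' → LIso a b x

end Pool.Agent.N641.DL
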